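import Pool.Agent.X86.AF.Inst

/-!
# MP_bb898f_an : the values of the dimension of asymptotic sets of the Gauss map

The Gauss map is `G 0 = 0`, `G x = 1/x - ⌊1/x⌋` on `[0, 1)`, the asymptotic set of `x ∈ [0, 1)` is
`AS x = {y ∈ [0, 1) : |G^n x - G^n y| → 0}`.  We prove that the set of values of
`x ↦ dim_H AS x` on `[0, 1)` is the closed interval `[0, 1/2]`.
-/

open Set Filter Topology
open scoped ENNReal

namespace Pool.Agent.Results.MP_bb898f_an.ImageOfDimension

/-- The Gauss map. -/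
noncomputable def gauss (x : ℝ) : ℝ := if x = 0 then 0 else 1 / x - ⌊1 / x⌋

/-- The asymptotic set of `x` in `[0, 1)` under the Gauss map. -/
def AS (x : ℝ) : Set ℝ :=
  {y | y ∈ Ico (0:ℝ) 1 ∧ Tendsto (fun n : ℕ => |gauss^[n] x - gauss^[n] y|) atTop (𝓝 0)}

/-- **The image of `x ↦ dim_H AS x` on `[0, 1)` is `[0, 1/2]`.** -/
theorem _root_.Pool.Agent.Results.MP_bb898f_an.ImageOfDimension.result :
    {α : ℝ≥0∞ | ∃ x ∈ Ico (0:ℝ) 1, dimH (AS x) = α} = Icc 0 (1 / 2) := by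
  have h : Pool.Agent.X86.AF.IsMap Pool.Agent.X86.AF.gaussSys (Ico 0 1) gauss :=
    Pool.Agent.X86.AF.gauss_isMap (by simp [gauss]) (fun x hx => by
      unfold gauss; rw [if_neg hx.1.ne'])
  have h1 := Pool.Agent.X86.AF.image_eq h
  rw [Pool.Agent.X86.AF.image_Icc] at h1
  exact h1

end Pool.Agent.Results.MP_bb898f_an.ImageOfDimension
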